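import Mathlib

namespace Pool.Agent.H.MP_9f0ab0_gt

open MeasureTheory Set Metric Finset Module
open scoped Pointwise

theorem ball_le {F : Type*} [NormedAddCommGroup F] [InnerProductSpace ℝ F]
    [FiniteDimensional ℝ F] [MeasurableSpace F] [BorelSpace F] {d : ℕ} (hd : finrank ℝ F ≤ d)
    (x : F) {c : ℝ} (hc : 0 < c) :
    volume.real (closedBall x (c * √d)) ≤ c ^ finrank ℝ F * 5 ^ d := by
  have e := GaussianFourier.integral_rexp_neg_mul_sq_norm (V := F) (b := 1 / 2) (by norm_num)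
  have hi : Integrable (fun v : F => Real.exp (-(1 / 2) * ‖v‖ ^ 2)) :=
    .of_integral_ne_zero (by rw [e]; positivity)
  have h1 := setIntegral_ge_of_const_le_real (μ := volume) (s := closedBall (0 : F) √d)
    (c := Real.exp (-(1 / 2) * d)) measurableSet_closedBall measure_closedBall_lt_top.ne
    (fun v hv => by
      have h2 : ‖v‖ ≤ √d := by simpa using hv
      have h3 : ‖v‖ ^ 2 ≤ d := by
        rw [← Real.sq_sqrt (Nat.cast_nonneg (α := ℝ) d)]; gcongr
      exact Real.exp_le_exp.mpr (by nlinarith)) hi.integrableOn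
  have h3 := mul_le_mul_of_nonneg_left (h1.trans (setIntegral_le_integral hi
    (.of_forall fun v => (Real.exp_pos _).le))) (Real.exp_pos ((1 / 2) * d)).le
  rw [← mul_assoc, ← Real.exp_add, neg_mul, add_neg_cancel, Real.exp_zero, one_mul, e] at h3
  have h4 : (Real.pi / (1 / 2)) ^ (finrank ℝ F / 2 : ℝ) ≤ 3 ^ d := by
    calc _ ≤ ((3 : ℝ) ^ (2 : ℝ)) ^ (finrank ℝ F / 2 : ℝ) := by
          gcongr; norm_num; linarith [Real.pi_lt_four]
      _ = 3 ^ finrank ℝ F := by
          rw [← Real.rpow_mul (by norm_num), ← Real.rpow_natCast]; congr 1; ring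
      _ ≤ _ := pow_le_pow_right₀ (by norm_num) hd
  have h5 : Real.exp (1 / 2 * d) ≤ (5 / 3) ^ d := by
    rw [mul_comm, Real.exp_nat_mul]
    gcongr
    refine (abs_le_of_sq_le_sq' ?_ (by norm_num)).2
    rw [← Real.exp_nat_mul]
    norm_num
    linarith [Real.exp_one_lt_d9]
  have h6 : volume.real (closedBall (0 : F) √d) ≤ 5 ^ d := by
    refine h3.trans ((mul_le_mul h5 h4 (by positivity) (by positivity)).trans_eq ?_)
    rw [← mul_pow]; norm_num
  rw [Measure.real, Measure.addHaar_closedBall_mul_of_pos _ _ hc, ENNReal.toReal_mul,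
    ENNReal.toReal_ofReal (by positivity)]
  exact mul_le_mul_of_nonneg_left h6 (by positivity)

/-- Euclidean space. -/
abbrev E (d : ℕ) := EuclideanSpace ℝ (Fin d)

/-- Sign change. -/
noncomputable def sgnE {d : ℕ} (ε : Fin d → ℝ) (h : ∀ i, ε i * ε i = 1) : E d ≃ₗᵢ[ℝ] E d where
  toFun x := WithLp.toLp 2 fun i => ε i * x i
  invFun x := WithLp.toLp 2 fun i => ε i * x i
  map_add' x y := by ext i; simp [mul_add]
  map_smul' c x := by ext i; simp; ring
  left_inv x := by ext i; simp [← mul_assoc, h]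
  right_inv x := by ext i; simp [← mul_assoc, h]
  norm_map' x := by
    simp only [EuclideanSpace.norm_eq, Real.norm_eq_abs, sq_abs]
    congr 1
    exact sum_congr rfl fun i _ => by
      change (ε i * x i) ^ 2 = _
      rw [mul_pow, sq (ε i), h, one_mul]

theorem inv_int {d : ℕ} {K : Set (E d)} (T : E d ≃ₗᵢ[ℝ] E d) (h : T ⁻¹' K = K) (f : E d → ℝ) :
    ∫ x in K, f (T x) = ∫ x in K, f x := by
  have := T.measurePreserving.setIntegral_preimage_emb T.toHomeomorph.measurableEmbedding f K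
  rwa [h] at this

/-- The sign of a residue mod 2. -/
def s (a : ZMod 2) : ℝ := if a = 0 then 1 else -1

theorem s_add (a b : ZMod 2) : s (a + b) = s a * s b := by
  have : ∀ a : ZMod 2, a = 0 ∨ a = 1 := by decide
  have h : (1 : ZMod 2) + 1 = 0 := by decide
  rcases this a with rfl | rfl <;> rcases this b with rfl | rfl <;> simp [s, h]

theorem s_sq (a : ZMod 2) : s a * s a = 1 := by unfold s; split_ifs <;> norm_num

theorem s_abs (a : ZMod 2) : |s a| = 1 := by unfold s; split_ifs <;> norm_num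

/-- A Hadamard system on `Fin d` with the two symmetry properties that are needed. -/
structure Had (d : ℕ) (h : Fin d → Fin d → ℝ) : Prop where
  sq : ∀ b i, h b i * h b i = 1
  one : ∃ b, ∀ i, h b i = 1
  flip : ∀ i j, i ≠ j → ∃ b, h b i * h b j = -1
  mul : ∀ b c, ∃ a, ∀ i, h a i = h c i * h b i
  tr : ∀ i j, ∃ σ : Equiv.Perm (Fin d), σ.symm i = j ∧
    ∀ b, ∃ τ : ℝ, |τ| = 1 ∧ ∀ k, h b (σ k) = τ * h b k

theorem had (m : ℕ) : ∃ h, Had (2 ^ m) h := by
  let e : Fin (2 ^ m) ≃ (Fin m → ZMod 2) := Fintype.equivOfCardEq (by simp)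
  refine ⟨fun b i => s (e b ⬝ᵥ e i), fun b i => s_sq _, ⟨e.symm 0, fun i => by simp [s]⟩,
    fun i j hij => ?_, fun b c => ⟨e.symm (e c + e b), fun i => ?_⟩, fun i j => ?_⟩
  · obtain ⟨k, hk⟩ := Function.ne_iff.1 (e.injective.ne hij)
    refine ⟨e.symm (Pi.single k 1), ?_⟩
    have : ∀ a b : ZMod 2, a ≠ b → a + b ≠ 0 := by decide
    rw [← s_add]
    simp [s, this _ _ hk]
  · simp [add_dotProduct, s_add]
  · refine ⟨e.trans ((Equiv.addRight (e i - e j)).trans e.symm), by simp, fun b =>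
      ⟨s (e b ⬝ᵥ (e i - e j)), s_abs _, fun k => ?_⟩⟩
    simp only [Equiv.trans_apply, Equiv.apply_symm_apply, Equiv.coe_addRight, dotProduct_add,
      s_add, mul_comm]

variable {d : ℕ} {h : Fin d → Fin d → ℝ}

/-- The cube of half side `μ` with `2 d` corners cut off. -/
def K (h : Fin d → Fin d → ℝ) (μ t : ℝ) : Set (E d) :=
  {x | (∀ i, |x i| ≤ μ) ∧ ∀ b, |∑ i, h b i * x i| ≤ μ * (d - t)}

theorem Had.abs (H : Had d h) (b i : Fin d) : |h b i| = 1 := by
  have := H.sq b i
  rw [← abs_mul_abs_self] at this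
  nlinarith [abs_nonneg (h b i)]

theorem K_neg (μ t : ℝ) : K h μ t = -K h μ t := by
  ext x; simp [K]

theorem K_smul {μ : ℝ} (hμ : 0 < μ) (t : ℝ) : K h μ t = μ • K h 1 t := by
  ext x
  rw [mem_smul_set_iff_inv_smul_mem₀ hμ.ne']
  have e : ∀ b, ∑ i, h b i * (μ⁻¹ * x i) = μ⁻¹ * ∑ i, h b i * x i := fun b => by
    rw [mul_sum]; exact sum_congr rfl fun i _ => by ring
  simp only [K, mem_ofPred_eq, PiLp.smul_apply, smul_eq_mul, e, abs_mul, abs_inv, abs_of_pos hμ,
    inv_mul_le_iff₀ hμ, mul_one, one_mul]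

theorem int_one (μ t : ℝ) (i : Fin d) : ∫ x in K h μ t, x i = 0 := by
  have := inv_int (K := K h μ t) (LinearIsometryEquiv.neg ℝ) (by ext x; simp [K]) fun x => x i
  simp only [LinearIsometryEquiv.coe_neg, PiLp.neg_apply, integral_neg] at this
  linarith

theorem int_off (H : Had d h) (μ t : ℝ) {i j : Fin d} (hij : i ≠ j) :
    ∫ x in K h μ t, x i * x j = 0 := by
  obtain ⟨b, hb⟩ := H.flip i j hij
  have key : ∀ x ∈ K h μ t, sgnE (h b) (H.sq b) x ∈ K h μ t := fun x hx =>
    ⟨fun i => by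
      change |h b i * x i| ≤ μ
      rw [abs_mul, H.abs, one_mul]; exact hx.1 i, fun c => by
      obtain ⟨a, ha⟩ := H.mul b c
      have := hx.2 a
      simp only [ha, mul_assoc] at this
      exact this⟩
  have := inv_int (K := K h μ t) (sgnE (h b) (H.sq b)) (Subset.antisymm (fun x hx => by
    have := key _ hx
    rwa [show sgnE (h b) (H.sq b) (sgnE (h b) (H.sq b) x) = x from
      (sgnE (h b) (H.sq b)).left_inv x] at this) key) fun x => x i * x j
  have e : ∀ x : E d, (sgnE (h b) (H.sq b) x) i * (sgnE (h b) (H.sq b) x) j = -(x i * x j) :=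
    fun x => by
      change h b i * x i * (h b j * x j) = _
      linear_combination (x i * x j) * hb
  simp only [e, integral_neg] at this
  linarith

theorem int_diag (H : Had d h) (μ t : ℝ) (i j : Fin d) :
    ∫ x in K h μ t, x i * x i = ∫ x in K h μ t, x j * x j := by
  obtain ⟨σ, hσ, hs⟩ := H.tr i j
  have := inv_int (K := K h μ t) (LinearIsometryEquiv.piLpCongrLeft 2 ℝ ℝ σ) (by
    ext x
    simp only [K, Set.mem_preimage, mem_ofPred_eq, LinearIsometryEquiv.piLpCongrLeft_apply,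
      Equiv.piCongrLeft'_apply]
    refine and_congr ⟨fun k i => by simpa using k (σ i), fun k i => k _⟩ (forall_congr' fun b => ?_)
    obtain ⟨τ, h1, h2⟩ := hs b
    rw [← Equiv.sum_comp σ]
    simp only [h2, Equiv.symm_apply_apply, mul_assoc, ← mul_sum, abs_mul, h1, one_mul])
    fun x => x i * x i
  simp only [LinearIsometryEquiv.piLpCongrLeft_apply, Equiv.piCongrLeft'_apply, hσ] at this
  exact this.symm

theorem K_norm {μ t : ℝ} (hμ : 0 ≤ μ) {x : E d} (hx : x ∈ K h μ t) : ‖x‖ ≤ μ * √d := by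
  refine (abs_le_of_sq_le_sq' ?_ (by positivity)).2
  rw [EuclideanSpace.real_norm_sq_eq, mul_pow, Real.sq_sqrt (Nat.cast_nonneg d)]
  refine (sum_le_card_nsmul _ _ (μ ^ 2) fun i _ => sq_le_sq' (abs_le.1 (hx.1 i)).1
    (abs_le.1 (hx.1 i)).2).trans_eq ?_
  simp [mul_comm]

theorem K_compact {μ : ℝ} (hμ : 0 ≤ μ) (t : ℝ) : IsCompact (K h μ t) := by
  refine isCompact_of_isClosed_isBounded ?_
    (isBounded_iff_forall_norm_le.2 ⟨_, fun x hx => K_norm hμ hx⟩)
  simp only [K, Set.ofPred_and, Set.ofPred_forall]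
  exact (isClosed_iInter fun i => isClosed_le (by fun_prop) continuous_const).inter
    (isClosed_iInter fun i => isClosed_le (by fun_prop) continuous_const)

theorem K_int {μ t : ℝ} (hμ : 0 < μ) (ht : t < d) : (0 : E d) ∈ interior (K h μ t) := by
  rw [mem_interior_iff_mem_nhds]
  refine Filter.Eventually.and (Filter.eventually_all.2 fun i => ?_)
    (Filter.eventually_all.2 fun b => ?_)
  · exact (ContinuousAt.eventually_lt (f := fun x : E d => |x i|) (g := fun _ => μ)
      (by fun_prop) continuousAt_const (by simpa using hμ)).mono fun _ => le_of_lt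
  · exact (ContinuousAt.eventually_lt (f := fun x : E d => |∑ i, h b i * x i|)
      (g := fun _ => μ * (d - t)) (by fun_prop) continuousAt_const
      (by simpa using mul_pos hμ (sub_pos.2 ht))).mono fun _ => le_of_lt

theorem K_zero (H : Had d h) (μ : ℝ) (x : E d) : x ∈ K h μ 0 ↔ ∀ i, |x i| ≤ μ := by
  refine ⟨fun k => k.1, fun k => ⟨k, fun b => (abs_sum_le_sum_abs _ _).trans ?_⟩⟩
  refine (sum_le_card_nsmul _ _ μ fun i _ => by rw [abs_mul, H.abs, one_mul]; exact k i).trans_eq ?_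
  simp [mul_comm]

theorem K_sub (H : Had d h) (t : ℝ) : K h 1 t ⊆ K h 1 0 := fun x hx => (K_zero H 1 x).2 hx.1

/-- The vertices that are cut off. -/
noncomputable def vx (h : Fin d → Fin d → ℝ) (p : ZMod 2 × Fin d) : E d :=
  WithLp.toLp 2 fun i => s p.1 * h p.2 i

theorem cover (H : Had d h) (t : ℝ) :
    K h 1 0 ⊆ K h 1 t ∪ ⋃ p, closedBall (vx h p) t := by
  intro x hx
  by_cases k : x ∈ K h 1 t
  · exact Or.inl k
  have : ∃ p : ZMod 2 × Fin d, d - t < ∑ i, s p.1 * h p.2 i * x i := by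
    simp only [K, mem_ofPred_eq, hx.1, implies_true, true_and, not_forall, not_le, one_mul] at k
    obtain ⟨b, hb⟩ := k
    rcases lt_abs.1 hb with a | a
    · exact ⟨(0, b), by simpa [s] using a⟩
    · exact ⟨(1, b), by simpa [s] using a⟩
  obtain ⟨p, hp⟩ := this
  refine Or.inr (mem_iUnion.2 ⟨p, ?_⟩)
  have a1 : ∀ i, 0 ≤ 1 - s p.1 * h p.2 i * x i := fun i => by
    have : |s p.1 * h p.2 i * x i| ≤ 1 := by
      rw [abs_mul, abs_mul, s_abs, H.abs, one_mul, one_mul]; exact hx.1 i
    linarith [(abs_le.1 this).2]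
  have a2 : ∑ i, (1 - s p.1 * h p.2 i * x i) ≤ t := by
    rw [sum_sub_distrib]; simp; linarith
  have a3 := sum_nonneg fun i (_ : i ∈ Finset.univ) => a1 i
  rw [mem_closedBall, dist_eq_norm]
  refine (abs_le_of_sq_le_sq' ?_ (a3.trans a2)).2
  rw [EuclideanSpace.real_norm_sq_eq]
  calc _ = ∑ i, (1 - s p.1 * h p.2 i * x i) ^ 2 := sum_congr rfl fun i _ => by
        have := s_sq p.1
        have := H.sq p.2 i
        change (x i - s p.1 * h p.2 i) ^ 2 = _
        grind
    _ ≤ (∑ i, (1 - s p.1 * h p.2 i * x i)) ^ 2 := sum_sq_le_sq_sum_of_nonneg fun i _ => a1 i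
    _ ≤ _ := by gcongr

theorem box_vol (a b : Fin d → ℝ) (hab : a ≤ b) :
    volume.real (WithLp.ofLp ⁻¹' Set.Icc a b : Set (E d)) = ∏ i, (b i - a i) := by
  rw [Measure.real, (PiLp.volume_preserving_ofLp (Fin d)).measure_preimage
    measurableSet_Icc.nullMeasurableSet, Real.volume_Icc_pi_toReal hab]

theorem cube_vol (H : Had d h) : volume.real (K h 1 0) = 2 ^ d := by
  have : K h 1 0 = WithLp.ofLp ⁻¹' Set.Icc (fun _ => -1) (fun _ => 1) := by
    ext x; simp [K_zero H, abs_le, Pi.le_def, forall_and]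
  rw [this, box_vol _ _ fun i => by norm_num]
  norm_num

theorem sq_int {μ : ℝ} (hμ : 0 ≤ μ) (t : ℝ) (i : Fin d) :
    IntegrableOn (fun x : E d => x i * x i) (K h μ t) :=
  (by fun_prop : Continuous fun x : E d => x i * x i).continuousOn.integrableOn_compact
    (K_compact hμ t)

theorem cube_low (H : Had d h) (i : Fin d) : 2 ^ d / 16 ≤ ∫ x in K h 1 0, x i * x i := by
  let B : Set (E d) := WithLp.ofLp ⁻¹' Set.Icc (fun j => if j = i then 1 / 2 else -1) fun _ => 1
  have hB : B ⊆ K h 1 0 := fun x hx => (K_zero H 1 x).2 fun j => abs_le.2 ⟨by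
    have := hx.1 j
    simp only at this
    split_ifs at this <;> linarith, hx.2 j⟩
  have v : volume.real B = 2 ^ d / 4 := by
    rw [box_vol _ _ fun j => by simp only; split_ifs <;> norm_num,
      ← mul_prod_erase _ _ (mem_univ i),
      prod_congr rfl (g := fun _ => (2 : ℝ)) fun j hj => by simp [ne_of_mem_erase hj]; norm_num]
    obtain ⟨k, rfl⟩ : ∃ k, d = k + 1 := ⟨d - 1, by have := i.pos; omega⟩
    simp; ring
  have mB : MeasurableSet B := measurableSet_Icc.preimage (by fun_prop)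
  have h1 := setIntegral_ge_of_const_le_real (μ := volume) (s := B) (c := 1 / 4) mB
    ((measure_mono hB).trans_lt (K_compact zero_le_one 0).measure_lt_top).ne
    (f := fun x => x i * x i) (fun x hx => by
      have := hx.1 i
      simp only [if_true] at this
      nlinarith) ((sq_int zero_le_one 0 i).mono_set hB)
  exact le_trans (by rw [v] at h1; linarith)
    (setIntegral_mono_set (sq_int zero_le_one 0 i) (.of_forall fun x => mul_self_nonneg _)
      hB.eventuallyLE)

end Pool.Agent.H.MP_9f0ab0_gt
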